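import Pool.Agent.L7h77.FX.Stm
import Pool.Agent.W716.FV.Asm

/-!
# Assembly of the main statement of project FX

Copy of `Pool.Agent.W716.FV.Asm1` and `Pool.Agent.W716.FV.Asm` with the weight `wx`.
-/

set_option autoImplicit false

open MeasureTheory InnerProductGeometry Set Filter Topology

namespace Pool.Agent.L7h77.FX

open Pool.Agent.W716.FV Pool.Agent.W716.FV.Asm
open Pool.Agent.H241R3.FV (Sph ext RChart Fill Triang gnorm)

theorem meas_wx (hcc : Measurable cc) (n : ℕ) (ε : ℝ) :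
    Measurable (fun p : E n × (ℝ × E n) => wx ε p.1 p.2) := by
  classical
  unfold wx
  refine Measurable.ite ?_ ?_ measurable_const
  · have h1 : IsClosed {p : E n × (ℝ × E n) | ‖p.2.2‖ ≤ ε} :=
      isClosed_le (f := fun p : E n × (ℝ × E n) => ‖p.2.2‖) (g := fun _ => ε)
        (by fun_prop) continuous_const
    have h2 : IsClosed {p : E n × (ℝ × E n) | p.2.1 ≤ 22 / 25} :=
      isClosed_le (f := fun p : E n × (ℝ × E n) => p.2.1) (g := fun _ => (22 / 25 : ℝ))
        (by fun_prop) continuous_const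
    exact (h1.inter h2).measurableSet
  · have h3 : Continuous (fun p : E n × (ℝ × E n) =>
        -‖p.1‖ ^ 2 / 2 - inner ℝ p.2.2 p.1) := by fun_prop
    have h4 : Measurable (fun p : E n × (ℝ × E n) => p.2.1) :=
      measurable_fst.comp measurable_snd
    exact Real.measurable_exp.comp (h3.measurable.sub ((hcc.comp h4).mul h4))

theorem wx_nonneg {n : ℕ} (ε : ℝ) (η : E n) (z : ℝ × E n) : 0 ≤ wx ε η z := by
  unfold wx
  split_ifs
  · exact (Real.exp_pos _).le
  · exact le_rfl

attribute [local irreducible] SS TT UU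

/-- factor of the integrand that depends on `η` -/
noncomputable def gx {n : ℕ} {M : Type} [MetricSpace M] (bd : Sph n → M) (C : RChart n M) (ε : ℝ)
    (η : E n) (z : ℝ × E n) : ENNReal :=
  ENNReal.ofReal (wx ε η (fm bd C η z) * Real.exp ((fm bd C η z).1 - 1 / 2))

theorem gx_aem (hcc : Measurable cc) {n : ℕ} {M : Type} [MetricSpace M] (bd : Sph n → M)
    (C : RChart n M)
    (hc : Continuous (fun z : E n × ℝ × M => Psi bd z.1 z.2.1 z.2.2)) (ε : ℝ) :
    AEMeasurable (fun p : E n × (ℝ × E n) => gx bd C ε p.1 p.2)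
      ((volume : Measure (E n)).prod ((volume : Measure (ℝ × E n)).restrict (sd C))) := by
  have h0 := fm_aem2 bd C hc
  have h1 : AEMeasurable (fun p : E n × (ℝ × E n) => (p.1, fm bd C p.1 p.2))
      ((volume : Measure (E n)).prod ((volume : Measure (ℝ × E n)).restrict (sd C))) :=
    AEMeasurable.prodMk measurable_fst.aemeasurable h0
  have h2 : AEMeasurable (fun p : E n × (ℝ × E n) => wx ε p.1 (fm bd C p.1 p.2))
      ((volume : Measure (E n)).prod ((volume : Measure (ℝ × E n)).restrict (sd C))) := by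
    have := (meas_wx hcc n ε).comp_aemeasurable h1
    exact this
  have h3 : AEMeasurable (fun p : E n × (ℝ × E n) => (fm bd C p.1 p.2).1)
      ((volume : Measure (E n)).prod ((volume : Measure (ℝ × E n)).restrict (sd C))) := by
    have := measurable_fst.comp_aemeasurable h0
    exact this
  have h4 : AEMeasurable (fun p : E n × (ℝ × E n) => Real.exp ((fm bd C p.1 p.2).1 - 1 / 2))
      ((volume : Measure (E n)).prod ((volume : Measure (ℝ × E n)).restrict (sd C))) := by
    have := Real.measurable_exp.comp_aemeasurable (h3.sub_const (1 / 2))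
    exact this
  have h5 := h2.mul h4
  exact h5.ennreal_ofReal

theorem Kgx_aem (hcc : Measurable cc) {n : ℕ} {M : Type} [MetricSpace M] (bd : Sph n → M)
    (C : RChart n M)
    (hc : Continuous (fun z : E n × ℝ × M => Psi bd z.1 z.2.1 z.2.2)) (ε : ℝ) :
    AEMeasurable (fun p : E n × (ℝ × E n) => Kf C p.2 * gx bd C ε p.1 p.2)
      ((volume : Measure (E n)).prod ((volume : Measure (ℝ × E n)).restrict (sd C))) := by
  have h1 : AEMeasurable (fun p : E n × (ℝ × E n) => Kf C p.2)
      ((volume : Measure (E n)).prod ((volume : Measure (ℝ × E n)).restrict (sd C))) :=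
    (Kf_aem C).comp_snd
  exact h1.mul (gx_aem hcc bd C hc ε)

/-- the estimate in one chart -/
theorem chart_bound (hcc : Measurable cc) (hPP : S_PP) {n : ℕ} {M : Type} [MetricSpace M]
    (bd : Sph n → M)
    (hU : ∀ q, Good 1 (UU bd q)) (C : RChart n M)
    (hc : Continuous (fun z : E n × ℝ × M => Psi bd z.1 z.2.1 z.2.2)) (ε : ℝ) (hε : 0 < ε) :
    ∫⁻ η : E n, ∫⁻ z in sd C, Kf C z * gx bd C ε η z ≤
      c1 * II n * volume (Metric.closedBall (0 : E n) ε) *
        ∫⁻ c in C.D, ENNReal.ofReal √((C.G c).det) := by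
  rw [lintegral_lintegral_swap (Kgx_aem hcc bd C hc ε)]
  set V : ENNReal := volume (Metric.closedBall (0 : E n) ε) with hV
  have h1 : ∀ᵐ z ∂((volume : Measure (ℝ × E n)).restrict (sd C)),
      ∫⁻ η : E n, Kf C z * gx bd C ε η z ≤
        (c1 * V) * (ENNReal.ofReal (z.1 ^ n * Real.exp (-(z.1 ^ 2) / 2)) *
          ENNReal.ofReal √((C.G z.2).det)) := by
    filter_upwards [ae_restrict_mem (sd_meas C)] with z hzs
    have hz1 : (0 : ℝ) < z.1 := hzs.1
    have hgood : Good z.1 (fun G : E n => z.1 * UU bd (C.map z.2) G) := by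
      have h := hU (C.map z.2)
      refine ⟨fun x y => ?_, fun t x ht => ?_⟩
      · rw [← mul_sub, abs_mul, abs_of_pos hz1]
        have := h.lip x y
        rw [one_mul] at this
        exact mul_le_mul_of_nonneg_left this hz1.le
      · rw [h.hom t x ht]; ring
    have hp := hPP n z.1 (fun G : E n => z.1 * UU bd (C.map z.2) G) hz1.le hgood ε hε
    have hp' : ∫⁻ η : E n, gx bd C ε η z ≤
        ENNReal.ofReal (Real.exp (-(z.1 ^ 2) / 2 - 1 / 2)) * V := hp
    rw [lintegral_const_mul' _ _ (by unfold Kf; exact ENNReal.ofReal_ne_top)]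
    calc Kf C z * ∫⁻ η : E n, gx bd C ε η z ≤
        Kf C z * (ENNReal.ofReal (Real.exp (-(z.1 ^ 2) / 2 - 1 / 2)) * V) := by gcongr
      _ = _ := by
          unfold Kf c1
          rw [show (√3)⁻¹ * z.1 ^ n * √(C.G z.2).det = ((√3)⁻¹ * z.1 ^ n) * √(C.G z.2).det by ring,
            ENNReal.ofReal_mul (by positivity : (0:ℝ) ≤ (√3)⁻¹ * z.1 ^ n),
            ENNReal.ofReal_mul (by positivity : (0:ℝ) ≤ (√3)⁻¹),
            ENNReal.ofReal_mul (by positivity : (0:ℝ) ≤ (√3)⁻¹),
            ENNReal.ofReal_mul (by positivity : (0:ℝ) ≤ z.1 ^ n),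
            show -(z.1 ^ 2) / 2 - 1 / 2 = -(z.1 ^ 2) / 2 + -(1 / 2) by ring, Real.exp_add,
            ENNReal.ofReal_mul (Real.exp_pos _).le]
          ring
  refine (lintegral_mono_ae h1).trans ?_
  have hfin : c1 * V ≠ ⊤ :=
    ENNReal.mul_ne_top (by unfold c1; exact ENNReal.ofReal_ne_top) (measure_closedBall_lt_top.ne)
  rw [lintegral_const_mul' _ _ hfin]
  have e : (volume : Measure (ℝ × E n)).restrict (sd C) =
      ((volume : Measure ℝ).restrict (Ioi 0)).prod ((volume : Measure (E n)).restrict C.D) := by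
    rw [Measure.prod_restrict]
    rfl
  rw [e, lintegral_prod_mul
    (f := fun R : ℝ => ENNReal.ofReal (R ^ n * Real.exp (-(R ^ 2) / 2)))
    (g := fun c : E n => ENNReal.ofReal √((C.G c).det))]
  · refine le_of_eq ?_
    show c1 * V * (II n * _) = c1 * II n * V * _
    ring
  · have h : Continuous (fun R : ℝ => ENNReal.ofReal (R ^ n * Real.exp (-(R ^ 2) / 2))) := by
      refine ENNReal.continuous_ofReal.comp ?_
      fun_prop
    exact h.aemeasurable
  · exact AEMeasurable.ennreal_ofReal ((cont_det C).aemeasurable C.meas_D)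

theorem area (hcc : Measurable cc) (hAR : AreaIneq) (hJA : Jac) (hNU : NullPsi) {n : ℕ}
    (hn : 0 < n) (M : Type)
    [MetricSpace M] (bd : Sph n → M)
    (hbd : ∀ x y : Sph n, angle (x : E n) (y : E n) ≤ dist (bd x) (bd y))
    (hc : Continuous (fun z : E n × ℝ × M => Psi bd z.1 z.2.1 z.2.2))
    (ι : Type) [Countable ι] (C : ι → RChart n M) (η : E n)
    (hcov : Om n ⊆ ⋃ i, fm bd (C i) η '' sd (C i)) (ε : ℝ) :
    ∫⁻ z in Om n, ENNReal.ofReal (wx ε η z) ≤
      ∑' i, ∫⁻ z in sd (C i), Kf (C i) z * gx bd (C i) ε η z := by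
  have hwm : Measurable (fun z : ℝ × E n => ENNReal.ofReal (wx ε η z)) := by
    have h1 : Measurable fun z : ℝ × E n => (η, z) := by fun_prop
    have h2 := (meas_wx hcc n ε).comp h1
    exact h2.ennreal_ofReal
  have hhaar : (volume : Measure (ℝ × E n)).IsAddHaarMeasure := by
    have h : ((volume : Measure ℝ).prod (volume : Measure (E n))).IsAddHaarMeasure := inferInstance
    exact h
  have key := hAR (ℝ × E n) volume ι (fun i => sd (C i)) (fun i => fm bd (C i) η) (Om n)
    (fun z => ENNReal.ofReal (wx ε η z)) (fun i => sd_meas (C i)) (fun i => fm_aem bd (C i) hc η)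
    (fun i t ht h0 => hNU n hn M bd hbd (C i) η t
      (fun z hz => ⟨(ht hz).1, (C i).D_sub (ht hz).2⟩) h0)
    (by
      intro i
      filter_upwards [fm_jac hJA hn bd hbd (C i)] with z hz hzs
      obtain ⟨L, hL, -⟩ := hz hzs η
      exact hL.differentiableAt)
    (Om_meas n) hwm hcov
  refine key.trans (ENNReal.tsum_le_tsum fun i => ?_)
  refine lintegral_mono_ae ?_
  filter_upwards [ae_restrict_of_ae (fm_jac hJA hn bd hbd (C i)),
    ae_restrict_mem (sd_meas (C i))] with z hz hzs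
  obtain ⟨L, hL, hL2⟩ := hz hzs η
  rw [hL.fderiv]
  unfold Kf gx
  have hz1 : (0 : ℝ) < z.1 := hzs.1
  rw [← ENNReal.ofReal_mul (abs_nonneg _), ← ENNReal.ofReal_mul (by positivity)]
  refine ENNReal.ofReal_le_ofReal ?_
  calc |L.det| * wx ε η (fm bd (C i) η z) ≤
      ((√3)⁻¹ * Real.exp ((fm bd (C i) η z).1 - 1 / 2) * z.1 ^ n *
        √((C i).G z.2).det) * wx ε η (fm bd (C i) η z) :=
          mul_le_mul_of_nonneg_right hL2 (wx_nonneg _ _ _)
    _ = _ := by ring

theorem total (hcc : Measurable cc) (hPP : S_PP) (hAR : AreaIneq) (hUF : UFacts) (hPF : PsiFacts)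
    (hJA : Jac)
    (hNU : NullPsi) (hCV : Cover) (d : ℕ) (hd : 1 ≤ d) (M : Type) [MetricSpace M]
    [CompactSpace M] (S : Fill d M) (hS : S.NonShort) (hT : S.Triangulated) (ε : ℝ) (hε : 0 < ε) :
    ∫⁻ η : E (d + 1), ∫⁻ z in Om (d + 1), ENNReal.ofReal (wx ε η z) ≤
      c1 * II (d + 1) * volume (Metric.closedBall (0 : E (d + 1)) ε) * S.vol := by
  have hn : 0 < d + 1 := Nat.succ_pos d
  obtain ⟨uf1, -, -, -, -⟩ := hUF (d + 1) hn M S.bd hS
  obtain ⟨-, -, -, -, pf5, -⟩ := hPF (d + 1) hn M S.bd hS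
  have := S.countable
  calc ∫⁻ η : E (d + 1), ∫⁻ z in Om (d + 1), ENNReal.ofReal (wx ε η z)
      ≤ ∫⁻ η : E (d + 1), ∑' i, ∫⁻ z in sd (S.chart i),
          Kf (S.chart i) z * gx S.bd (S.chart i) ε η z :=
        lintegral_mono fun η => area hcc hAR hJA hNU hn M S.bd hS pf5 S.ι S.chart η
          (cov hPF hCV d hd M S hS hT η) ε
    _ = ∑' i, ∫⁻ η : E (d + 1), ∫⁻ z in sd (S.chart i),
          Kf (S.chart i) z * gx S.bd (S.chart i) ε η z := by
        rw [lintegral_tsum]
        intro i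
        exact (Kgx_aem hcc S.bd (S.chart i) pf5 ε).lintegral_prod_right'
    _ ≤ ∑' i, c1 * II (d + 1) * volume (Metric.closedBall (0 : E (d + 1)) ε) *
          ∫⁻ c in (S.chart i).D, ENNReal.ofReal √(((S.chart i).G c).det) :=
        ENNReal.tsum_le_tsum fun i => chart_bound hcc hPP S.bd uf1 (S.chart i) pf5 ε hε
    _ = c1 * II (d + 1) * volume (Metric.closedBall (0 : E (d + 1)) ε) * S.vol := by
        rw [ENNReal.tsum_mul_left]
        rfl

theorem s_FX (hCC : S_CC) (hPP : S_PP) (hGL : S_GL) (hNF : S_NF) (hRC : RadialConst)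
    (hAR : AreaIneq) (hUF : UFacts) (hPF : PsiFacts) (hJA : Jac)
    (hNU : NullPsi) (hCV : Cover) : S_FX := by
  intro d hd M _ _ S hS hT
  have hmain := total hCC.1 hPP hAR hUF hPF hJA hNU hCV d hd M S hS hT (1 / 50) (by norm_num)
  have hlow := hGL (d + 1) (1 / 50) (by norm_num) (by norm_num)
  have hσ := hRC (d + 1)
  generalize hA : √(2 * Real.pi) ^ (d + 1) * (198 / 1000 - (1 / 50) ^ 2 / 6) = A at hlow
  have h2 : ENNReal.ofReal A * volume (Metric.closedBall (0 : E (d + 1)) (1 / 50)) ≤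
      c1 * II (d + 1) * volume (Metric.closedBall (0 : E (d + 1)) (1 / 50)) * S.vol :=
    hlow.trans hmain
  have hV0 : volume (Metric.closedBall (0 : E (d + 1)) (1 / 50)) ≠ 0 :=
    (Metric.measure_closedBall_pos volume (0 : E (d + 1)) (by norm_num)).ne'
  have hVt : volume (Metric.closedBall (0 : E (d + 1)) (1 / 50)) ≠ ⊤ :=
    measure_closedBall_lt_top.ne
  generalize volume (Metric.closedBall (0 : E (d + 1)) (1 / 50)) = V at h2 hV0 hVt
  have h3 : ENNReal.ofReal A ≤ c1 * II (d + 1) * S.vol := by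
    have h : ENNReal.ofReal A * V ≤ (c1 * II (d + 1) * S.vol) * V := by
      refine h2.trans (le_of_eq ?_)
      ring
    exact (ENNReal.mul_le_mul_iff_left hV0 hVt).1 h
  have hσ' : (volume : Measure (E (d + 1 + 1))).toSphere Set.univ * II (d + 1) =
      ENNReal.ofReal (√(2 * Real.pi) ^ (d + 1 + 1)) := hσ
  show ENNReal.ofReal (9 / 40) * (volume : Measure (E (d + 1 + 1))).toSphere Set.univ ≤ S.vol
  generalize (volume : Measure (E (d + 1 + 1))).toSphere Set.univ = σ at hσ' ⊢
  have hpos : (0 : ℝ) < √(2 * Real.pi) := Real.sqrt_pos.2 (by positivity)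
  have h3pos : (0 : ℝ) < √3 := Real.sqrt_pos.2 (by norm_num)
  have hB : 0 ≤ √3 * Real.exp (1 / 2) / √(2 * Real.pi) ^ (d + 1 + 1) := by positivity
  have hAB : 9 / 40 ≤ √3 * Real.exp (1 / 2) / √(2 * Real.pi) ^ (d + 1 + 1) * A := by
    refine hNF.trans (le_of_eq ?_)
    rw [← hA, pow_succ (√(2 * Real.pi)) (d + 1)]
    field_simp
  calc ENNReal.ofReal (9 / 40) * σ ≤
        ENNReal.ofReal (√3 * Real.exp (1 / 2) / √(2 * Real.pi) ^ (d + 1 + 1) * A) * σ := by gcongr
    _ = ENNReal.ofReal (√3 * Real.exp (1 / 2) / √(2 * Real.pi) ^ (d + 1 + 1)) *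
          (σ * ENNReal.ofReal A) := by
        rw [ENNReal.ofReal_mul hB]; ring
    _ ≤ ENNReal.ofReal (√3 * Real.exp (1 / 2) / √(2 * Real.pi) ^ (d + 1 + 1)) *
          (σ * (c1 * II (d + 1) * S.vol)) := by gcongr
    _ = ENNReal.ofReal (√3 * Real.exp (1 / 2) / √(2 * Real.pi) ^ (d + 1 + 1)) * c1 *
          (σ * II (d + 1)) * S.vol := by ring
    _ = S.vol := by
        unfold c1
        rw [hσ', ← ENNReal.ofReal_mul hB, ← ENNReal.ofReal_mul (by positivity)]
        have : √3 * Real.exp (1 / 2) / √(2 * Real.pi) ^ (d + 1 + 1) *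
            ((√3)⁻¹ * Real.exp (-(1 / 2))) * √(2 * Real.pi) ^ (d + 1 + 1) = 1 := by
          rw [Real.exp_neg]
          field_simp
        rw [this, ENNReal.ofReal_one, one_mul]

end Pool.Agent.L7h77.FX
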