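import Pool.Agent.L7h77.FX.Stm

/-!
# [PP]: the estimate for a fixed point of the cone
-/

set_option autoImplicit false

open MeasureTheory

namespace Pool.Agent.L7h77.FX

open Pool.Agent.W716.FV

theorem s_INJ (h1 : S_MONO) (n : ℕ) (R : ℝ) (u : E n → ℝ) (hR : 0 ≤ R) (hu : Good R u)
    (η₁ η₂ : E n) (h₁ : SS R u η₁ ≤ 22 / 25) (h₂ : SS R u η₂ ≤ 22 / 25)
    (h : TT u η₁ = TT u η₂) : η₁ = η₂ := by
  by_contra hne
  have h3 := h1 n R u hR hu η₁ η₂
  rw [h, sub_self, inner_zero_left] at h3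
  have h4 : 0 < ‖η₂ - η₁‖ := norm_pos_iff.2 (sub_ne_zero.2 (Ne.symm hne))
  have h5 : (SS R u η₁ + SS R u η₂) / 2 - 1 < 0 := by linarith
  have h6 : ‖η₂ - η₁‖ ^ 2 * ((SS R u η₁ + SS R u η₂) / 2 - 1) < 0 :=
    mul_neg_of_pos_of_neg (by positivity) h5
  linarith

theorem SS_nonneg (hXI : XIdent) {n : ℕ} {R : ℝ} {u : E n → ℝ} (hR : 0 ≤ R) (hu : Good R u)
    (η : E n) : 0 ≤ SS R u η := by
  obtain ⟨h1, h2, -, h4, h5⟩ := hXI n R u hR hu η
  have h0 : 0 ≤ ∫ w, (1 + w.2 ^ 2) * XX R u η w ∂(P n) :=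
    integral_nonneg fun w => mul_nonneg (by positivity) ((sq_nonneg _).trans (h1 w))
  rw [h5] at h0
  linarith

theorem s_PP (h1 : S_MONO) (h2 : S_POS) (h3 : S_HS) (h4 : S_DL) (h5 : S_CC)
    (hTD : TDeriv) (hSY : ASymm) (hXI : XIdent) (hAI : AIdent) : S_PP := by
  intro n R u hR hu ε hε
  obtain ⟨hT, hS⟩ := hTD n R u hR hu
  have hTc : Continuous (TT u) := continuous_iff_continuousAt.2 fun η => (hT η).continuousAt
  set Z : Set (E n) := {η | ‖TT u η‖ ≤ ε} ∩ {η | SS R u η ≤ 22 / 25} with hZdef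
  have hZ : MeasurableSet Z := ((isClosed_le hTc.norm continuous_const).inter
    (isClosed_le hS continuous_const)).measurableSet
  set c : ℝ := Real.exp (-(R ^ 2) / 2 - 1 / 2) with hc
  have hpt : ∀ η : E n,
      ENNReal.ofReal (wx ε η (SS R u η, TT u η) * Real.exp (SS R u η - 1 / 2)) ≤
        Z.indicator (fun η => ENNReal.ofReal c *
          ENNReal.ofReal |(AA u η - ContinuousLinearMap.id ℝ (E n)).det|) η := by
    intro η
    by_cases hη : η ∈ Z
    · rw [Set.indicator_of_mem hη, ← ENNReal.ofReal_mul (Real.exp_pos _).le]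
      refine ENNReal.ofReal_le_ofReal ?_
      obtain ⟨k1, k2⟩ := hη
      have k1' : ‖TT u η‖ ≤ ε := k1
      have k2' : SS R u η ≤ 22 / 25 := k2
      have k0 := SS_nonneg hXI hR hu η
      unfold wx
      rw [if_pos ⟨k1', k2'⟩, ← Real.exp_add]
      obtain ⟨htr, -⟩ := hAI n R u hR hu η
      have hHS := h3 n R u hR hu η
      obtain ⟨-, hcc, hcc2⟩ := h5
      obtain ⟨c1, c2⟩ := hcc2 (SS R u η) k0 k2'
      set S := SS R u η with hSdef
      set φ : ℝ := 3 / 4 * (cc S - 4) with hφ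
      have hD := h4 n (AA u η) (hSY n R u hR hu η) S φ k0 (by linarith) c1 c2
        (fun v => h2 n R u hR hu η v)
      have k3 : EX R u η / 2 + S - cc S * S ≤
          -(LinearMap.trace ℝ (E n) (AA u η : E n →ₗ[ℝ] E n)) -
            φ * ∑ i, ‖AA u η (EuclideanSpace.single i 1)‖ ^ 2 := by
        rw [htr]
        have k4 : φ * ∑ i, ‖AA u η (EuclideanSpace.single i 1)‖ ^ 2 ≤ φ * (4 / 3 * S) :=
          mul_le_mul_of_nonneg_left hHS (by linarith)
        have k5 : φ * (4 / 3 * S) = (cc S - 4) * S := by rw [hφ]; ring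
        linarith
      have k6 := (Real.exp_le_exp.2 k3).trans hD
      have k7 : -‖η‖ ^ 2 / 2 - inner ℝ (TT u η) η - cc S * S + (S - 1 / 2) =
          (-(R ^ 2) / 2 - 1 / 2) + (EX R u η / 2 + S - cc S * S) := by
        unfold EX
        ring
      simp only [k7]
      rw [Real.exp_add]
      exact mul_le_mul_of_nonneg_left k6 (Real.exp_pos _).le
    · rw [Set.indicator_of_notMem hη]
      unfold wx
      rw [if_neg (fun h => hη ⟨h.1, h.2⟩), zero_mul, ENNReal.ofReal_zero]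
  refine (lintegral_mono hpt).trans ?_
  rw [lintegral_indicator hZ, lintegral_const_mul' _ _ ENNReal.ofReal_ne_top]
  refine mul_le_mul_right ?_ _
  rw [lintegral_abs_det_fderiv_eq_addHaar_image volume hZ
    (fun η _ => (hT η).hasFDerivWithinAt)
    (fun η₁ k₁ η₂ k₂ h => s_INJ h1 n R u hR hu η₁ η₂ k₁.2 k₂.2 h)]
  refine measure_mono ?_
  rintro _ ⟨η, hη, rfl⟩
  rw [Metric.mem_closedBall, dist_zero_right]
  exact hη.1

end Pool.Agent.L7h77.FX
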