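import Pool.Agent.W716.FV.StmB

/-!
# Project FX: the dimension-free constant `9/20` in Gromov's filling inequality for round spheres

Notation of `Pool.Agent.W716.FV` (`Defs.lean`, `StmA.lean`): `P n` is the law of `(g, κ)`, `g` standard
Gaussian in `ℝ^n`, `κ` symmetric with `E κ² = 1/3`; `ξ_η = g + κ η`;
`T_η = E[u(ξ_η) g] - η`, `S_η = (R² + |η|²)/6 - E[κ u(ξ_η)]`, `A_η = T'_η + 1`.

Read the proof sketches in the docstrings.  Every `S_X : Prop` is to be proved as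
`theorem Pool.Agent.L7hNN.FX.s_X : Pool.Agent.L7h77.FX.S_X` (with the named hypotheses if any).
-/

set_option autoImplicit false

open MeasureTheory

namespace Pool.Agent.L7h77.FX

open Pool.Agent.W716.FV

/-- [MONO] Strict monotonicity of `T` on the set `S ≤ 1`.  150 lines.
Allowed hypotheses: `PMoments`, `GoodFacts` (both proved: `Pool.Agent.W716.FV.pM`, `gF`); moments.

Proof.  Put `m = (η₁+η₂)/2`, `b = (η₂-η₁)/2`, `ζ = g + κ b`, and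
`Σ(κ, z) = u(z + κ m) + u(-z + κ m) - u(-z - κ m) - u(z - κ m)`.
`Σ` is even in `z`, odd in `κ`, and `κ Σ(κ, z) ≤ 4 R κ² |m|` (Lipschitz: `z + κm` against `z - κm`, and
`-z + κm` against `-z - κm`).  Let `Y = 4 R κ² |m| - κ Σ(κ, z) ≥ 0`, even in `z`, even in `κ`.
The law of `(g, κ)` is invariant under `g → -g` and under `κ → -κ` (each separately), so
(a) `⟨T₂ - T₁, b⟩ = -2|b|² + 1/2 E[Σ(κ, ζ) ⟨g, b⟩]`:
   `E[u(g+κη₂)⟨g,b⟩] - E[u(g+κη₁)⟨g,b⟩]`, with `g + κη₂ = ζ + κm`; in the second term replace `g` by `-g`: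
   `-E[u(g+κη₁)⟨g,b⟩] = E[u(-g+κη₁)⟨g,b⟩] = E[u(-ζ+κm)⟨g,b⟩]`; the other two terms of `Σ` are obtained
   from these by `(g, κ) → (-g, -κ)`: `E[u(ζ+κm)⟨g,b⟩] = -E[u(-ζ-κm)⟨g,b⟩]` and
   `E[u(-ζ+κm)⟨g,b⟩] = -E[u(ζ-κm)⟨g,b⟩]`.  So `E[Σ ⟨g,b⟩] = 2 E[(u(ζ+κm) + u(-ζ+κm))⟨g,b⟩]`.
(b) `E[κ Σ(κ, ζ)] = 2 (E[κ u(ξ_η₁)] + E[κ u(ξ_η₂)])` in the same way, so
   `E[Y] = (4/3) R |m| - 2 (E[κu₁] + E[κu₂]) = 2 (S₁+S₂) - (2/3) (R-|m|)² - (2/3) |b|² ≤ 2 (S₁ + S₂)`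
   because `|η₁|² + |η₂|² = 2|m|² + 2|b|²`.
(c) `E[Σ ⟨g,b⟩] ≤ |b|² E[κ Σ]`-type estimate: for every fixed `κ ≠ 0`, with `Σ = 4Rκ|m| - Y/κ` and
   `E_g⟨g,b⟩ = 0`: `E_g[Σ(κ,ζ) ⟨g,b⟩] = -(1/κ) E_g[Y(κ,ζ) ⟨g,b⟩] = -(1/κ) E_g[Y (⟨ζ,b⟩ - κ|b|²)]
   = |b|² E_g[Y] - (1/κ) E_g[Y(κ,ζ) ⟨ζ,b⟩] ≤ |b|² E_g[Y]`, since `Y` is even in `z` and
   `∫ Y(z) ⟨z,b⟩ exp(-|z-κb|²/2) dz = ∫ Y(z) ⟨z,b⟩ sinh(κ⟨z,b⟩) exp(-|z|²/2 - κ²|b|²/2) dz` has the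
   sign of `κ`.  (Without dividing by `κ`: use `z`-coordinates: the difference
   `|b|² Y - Σ ⟨g,b⟩ + 4Rκ|m|⟨g,b⟩`, integrated over `g` and symmetrised in `z`, is `>= 0`.)
Hence `⟨T₂-T₁, b⟩ ≤ -2|b|² + (1/2)|b|² E[Y] ≤ |b|² (S₁ + S₂ - 2)`. -/
def S_MONO : Prop :=
  ∀ (n : ℕ) (R : ℝ) (u : E n → ℝ), 0 ≤ R → Good R u → ∀ η₁ η₂ : E n,
    (inner ℝ (TT u η₂ - TT u η₁) (η₂ - η₁) : ℝ) ≤
      ‖η₂ - η₁‖ ^ 2 * ((SS R u η₁ + SS R u η₂) / 2 - 1)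

/-- [POS] `A ≤ S`.  From `S_MONO` and `TDeriv` (`Pool.Agent.W716.FV.tD`): 50 lines.
`t ↦ ⟨T(η + t v) - T(η), v⟩` has derivative `⟨(A - 1) v, v⟩` at `t = 0` and is `≤ t |v|² ((S_η +
S_(η+tv))/2 - 1)` for `t > 0` by MONO; `S` is continuous. -/
def S_POS : Prop :=
  ∀ (n : ℕ) (R : ℝ) (u : E n → ℝ), 0 ≤ R → Good R u → ∀ η v : E n,
    (inner ℝ (AA u η v) v : ℝ) ≤ SS R u η * ‖v‖ ^ 2

/-- [HS] Hilbert-Schmidt norm of `A`.  120 lines: the second half of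
`Pool.Agent.W125.FV.main` (`W125/FV/AI.lean`) with the weight `1 + κ²`.
`|a|² = E[κ ⟨∇u(ξ) - η, v⟩ ⟨g, a⟩]` for `a = A v`, and
`κ Y Z ≤ (1/12) (1+κ²) Y² + 3 κ²/(1+κ²) Z²` with `E[κ²/(1+κ²) ⟨g,a⟩²] = |a|²/6` (product measure,
`KappaMoments`, `GaussMoments`; `P n = (gam n).prod nu`), so `|A v|² ≤ (1/6) E[(1+κ²) ⟨∇u(ξ)-η, v⟩²]`;
sum over an orthonormal basis and use `XIdent` (`|∇u-η|² ≤ X`, `E[(1+κ²) X] = 8 S`).
Allowed hypotheses: `KappaMoments GaussMoments PMoments GoodFacts XIdent` (proved: `kM gM pM gF xI` in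
`Pool.Agent.W716.FV.Final`). -/
def S_HS : Prop :=
  ∀ (n : ℕ) (R : ℝ) (u : E n → ℝ), 0 ≤ R → Good R u → ∀ η : E n,
    ∑ i, ‖AA u η (EuclideanSpace.single i 1)‖ ^ 2 ≤ 4 / 3 * SS R u η

/-- [LOG] elementary.  60 lines, see `Pool.Agent.W816.FV.DL.log_ineq`.
`F(x) = log (1-x) + x + φ x²` has `F(0) = 0`, `F'(x) = x (2φ - 1/(1-x))`: decreasing on `(-∞, 0]`,
increasing and then decreasing on `[0, s]`, and `F(s) ≥ 0`. -/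
def S_LOG : Prop :=
  ∀ s φ x : ℝ, 0 ≤ s → s < 1 → 1 / 2 ≤ φ → Real.exp (-s - φ * s ^ 2) ≤ 1 - s → x ≤ s →
    Real.exp (-x - φ * x ^ 2) ≤ 1 - x

/-- [DL] lower bound for the determinant.  From `S_LOG`; copy of `Pool.Agent.W816.FV.DL.main`. 80 lines
(all eigenvalues are `≤ s`). -/
def S_DL : Prop :=
  ∀ (n : ℕ) (A : E n →L[ℝ] E n), (∀ v w : E n, (inner ℝ (A v) w : ℝ) = inner ℝ (A w) v) →
    ∀ s φ : ℝ, 0 ≤ s → s < 1 → 1 / 2 ≤ φ → Real.exp (-s - φ * s ^ 2) ≤ 1 - s →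
    (∀ v : E n, (inner ℝ (A v) v : ℝ) ≤ s * ‖v‖ ^ 2) →
    Real.exp (-(LinearMap.trace ℝ (E n) (A : E n →ₗ[ℝ] E n)) -
      φ * ∑ i, ‖A (EuclideanSpace.single i 1)‖ ^ 2) ≤ |(A - ContinuousLinearMap.id ℝ (E n)).det|

/-- the slope `c(s)`: `4 + (4/3) φ`, `φ` a bound for `-(log (1-s) + s)/s²` at the right end of the
piece -/
noncomputable def cc (s : ℝ) : ℝ :=
  if s ≤ 18 / 100 then 476 / 100 else if s ≤ 30 / 100 then 484 / 100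
  else if s ≤ 38 / 100 then 491 / 100 else if s ≤ 48 / 100 then 501 / 100
  else if s ≤ 58 / 100 then 514 / 100 else if s ≤ 68 / 100 then 533 / 100
  else if s ≤ 78 / 100 then 561 / 100 else 614 / 100

/-- the weight `1[|τ| ≤ ε, s ≤ 22/25] exp(-|η|²/2 - ⟨τ,η⟩ - c(s) s)` at `z = (s, τ)` -/
noncomputable def wx {n : ℕ} (ε : ℝ) (η : E n) (z : ℝ × E n) : ℝ :=
  open Classical in
  if ‖z.2‖ ≤ ε ∧ z.1 ≤ 22 / 25 then
    Real.exp (-‖η‖ ^ 2 / 2 - inner ℝ z.2 η - cc z.1 * z.1) else 0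

/-- [CC] properties of the slope.  60 lines.  Measurable; `4 ≤ c ≤ 7`; for `0 ≤ s ≤ 22/25` the number
`φ = (3/4)(c(s) - 4)` satisfies `1/2 ≤ φ` and `exp(-s - φ s²) ≤ 1 - s`.  For the last claim: check it
at the right ends `0.18, 0.30, 0.38, 0.48, 0.58, 0.68, 0.78, 0.88` numerically and use `S_LOG` with `x`
= `s`. (`φ` = 0.57, 0.63, 0.6825, 0.7575, 0.855, 0.9975, 1.2075, 1.605.) -/
def S_CC : Prop :=
  Measurable cc ∧ (∀ s, 4 ≤ cc s ∧ cc s ≤ 7) ∧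
  ∀ s : ℝ, 0 ≤ s → s ≤ 22 / 25 →
    1 / 2 ≤ 3 / 4 * (cc s - 4) ∧ Real.exp (-s - 3 / 4 * (cc s - 4) * s ^ 2) ≤ 1 - s

/-- [PP] the estimate for a fixed point of the cone: copy of `Pool.Agent.W253.FV.PP.main` with
`S_MONO` (injectivity), `S_POS`, `S_HS`, `S_DL`, `S_CC`.  80 lines. -/
def S_PP : Prop :=
  ∀ (n : ℕ) (R : ℝ) (u : E n → ℝ), 0 ≤ R → Good R u → ∀ ε : ℝ, 0 < ε →
    ∫⁻ η : E n, ENNReal.ofReal (wx ε η (SS R u η, TT u η) * Real.exp (SS R u η - 1 / 2)) ≤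
      ENNReal.ofReal (Real.exp (-(R ^ 2) / 2 - 1 / 2)) *
        volume (Metric.closedBall (0 : E n) ε)

/-- [SI] numerical integral (value 0.19833).  100 lines.  On each piece the integral is
`(exp(-c a) - exp(-c b))/c`. -/
def S_SI : Prop :=
  ENNReal.ofReal (198 / 1000) ≤
    ∫⁻ s in Set.Ioc (0 : ℝ) (22 / 25), ENNReal.ofReal (Real.exp (-(cc s * s)))

/-- [GL] lower bound for the integral of the weights: copy of `Pool.Agent.W718.FV.GL.main`, from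
`S_SI` and `S_CC` (measurability, `c ≥ 0`, so that the integrand is `≤ 1` on `(0, ε²/6]`).  150 lines. -/
def S_GL : Prop :=
  ∀ (n : ℕ) (ε : ℝ), 0 < ε → ε ≤ 1 / 2 →
    ENNReal.ofReal (√(2 * Real.pi) ^ n * (198 / 1000 - ε ^ 2 / 6)) *
      volume (Metric.closedBall (0 : E n) ε) ≤
    ∫⁻ η : E n, ∫⁻ z in {z : ℝ × E n | ‖z.2‖ ^ 2 / 6 < z.1}, ENNReal.ofReal (wx ε η z)

/-- [NF] numerical constant, as `Pool.Agent.W597.FV.main`.  30 lines. -/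
def S_NF : Prop :=
  9 / 40 ≤ √3 * Real.exp (1 / 2) * (198 / 1000 - (1 / 50) ^ 2 / 6) / √(2 * Real.pi)

/-- [ASM] the main statement: copy of `Pool.Agent.W716.FV.Asm1` (from `meas_wt`) and of
`Pool.Agent.W716.FV.Asm` with `wx` instead of `wt`. -/
def S_FX : Prop :=
  ∀ (d : ℕ), 1 ≤ d → ∀ (M : Type) [MetricSpace M] [CompactSpace M]
    (S : Pool.Agent.H241R3.FV.Fill d M), S.NonShort → S.Triangulated →
    ENNReal.ofReal (9 / 40) *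
      (volume : Measure (EuclideanSpace ℝ (Fin (d + 2)))).toSphere Set.univ ≤ S.vol

end Pool.Agent.L7h77.FX
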